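import Mathlib

/-!
# Project Y557-UNI (owner helper557), task UNI-2: a minor of the matrix of a parametrisation

The algebraic part, for a field with a nonarchimedean absolute value.
-/

set_option autoImplicit false

open Polynomial Finset

namespace Pool.Agent.Y664.U557

section alg

variable {K : Type} [Field K] {n m : ℕ}

theorem deg_mul {r f : K[X]} (hr : r.degree < (m : ℕ)) (hf : f.natDegree ≤ m) :
    (r * f).degree < ((2 * m : ℕ) : WithBot ℕ) := by
  by_cases h0 : r = 0
  · rw [h0, zero_mul, degree_zero]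
    exact WithBot.bot_lt_coe _
  · have h1 := (natDegree_lt_iff_degree_lt h0).2 hr
    have h2 : (r * f).natDegree ≤ r.natDegree + f.natDegree := natDegree_mul_le
    refine degree_le_natDegree.trans_lt ?_
    exact_mod_cast (by omega : (r * f).natDegree < 2 * m)

/-- every polynomial of degree less than `2m` is a combination -/
theorem rep (f : Fin n → K[X]) (hf : ∀ i, (f i).natDegree ≤ m) (i0 : Fin n)
    (h0 : (f i0).natDegree = m) (hm : 1 ≤ m) (u : Fin n → K[X]) (hu : ∑ i, u i * f i = 1)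
    (g : K[X]) (hg : g.degree < ((2 * m : ℕ) : WithBot ℕ)) :
    ∃ w : Fin n → K[X], (∀ i, (w i).degree < (m : ℕ)) ∧ ∑ i, w i * f i = g := by
  have hf0 : f i0 ≠ 0 := by
    intro h
    rw [h, natDegree_zero] at h0
    omega
  have hfd : (f i0).degree = (m : ℕ) := by rw [degree_eq_natDegree hf0, h0]
  obtain ⟨q, hq⟩ : ∃ q : Fin n → K[X], q = fun i => (g * u i) / f i0 := ⟨_, rfl⟩
  obtain ⟨r, hr⟩ : ∃ r : Fin n → K[X], r = fun i => (g * u i) % f i0 := ⟨_, rfl⟩
  have hqr : ∀ i, f i0 * q i + r i = g * u i := by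
    intro i
    rw [hq, hr]
    exact EuclideanDomain.div_add_mod _ _
  have hrd : ∀ i, (r i).degree < (m : ℕ) := by
    intro i
    rw [hr, ← hfd]
    exact EuclideanDomain.mod_lt _ hf0
  obtain ⟨A, hA⟩ : ∃ A : K[X], A = ∑ i, q i * f i := ⟨_, rfl⟩
  have hsum : A * f i0 + ∑ i, r i * f i = g := by
    calc A * f i0 + ∑ i, r i * f i = ∑ i, (f i0 * q i + r i) * f i := by
          rw [hA, Finset.sum_mul, ← Finset.sum_add_distrib]
          refine Finset.sum_congr rfl fun i _ => ?_
          ring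
      _ = ∑ i, g * (u i * f i) := by
          refine Finset.sum_congr rfl fun i _ => ?_
          rw [hqr]
          ring
      _ = g := by rw [← Finset.mul_sum, hu, mul_one]
  have hAd : (A * f i0).degree < ((2 * m : ℕ) : WithBot ℕ) := by
    have h1 : A * f i0 = g - ∑ i, r i * f i := by rw [← hsum]; ring
    rw [h1]
    refine (degree_sub_le _ _).trans_lt (max_lt hg ?_)
    refine (degree_sum_le _ _).trans_lt ?_
    rw [Finset.sup_lt_iff (WithBot.bot_lt_coe _)]
    exact fun i _ => deg_mul (hrd i) (hf i)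
  have hA1 : A.degree < (m : ℕ) := by
    by_cases hA0 : A = 0
    · rw [hA0, degree_zero]
      exact WithBot.bot_lt_coe _
    · have h2 := (natDegree_lt_iff_degree_lt (mul_ne_zero hA0 hf0)).2 hAd
      rw [natDegree_mul hA0 hf0, h0] at h2
      exact (natDegree_lt_iff_degree_lt hA0).1 (by omega)
  refine ⟨fun i => r i + if i = i0 then A else 0, fun i => ?_, ?_⟩
  · by_cases hi : i = i0
    · simp only [hi, if_true]
      exact (degree_add_le _ _).trans_lt (max_lt (hrd i0) hA1)
    · simp only [hi, if_false, add_zero]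
      exact hrd i
  · simp only [add_mul, Finset.sum_add_distrib, ite_mul, zero_mul, Finset.sum_ite_eq',
      Finset.mem_univ, if_true]
    rw [add_comm]
    exact hsum

/-- the coefficients of `X ^ l * f i` -/
noncomputable def colv (f : Fin n → K[X]) (m : ℕ) (p : Fin n × Fin m) : Fin (2 * m) → K :=
  fun j => (X ^ (p.2 : ℕ) * f p.1).coeff j

theorem span_colv (f : Fin n → K[X]) (hf : ∀ i, (f i).natDegree ≤ m) (i0 : Fin n)
    (h0 : (f i0).natDegree = m) (hm : 1 ≤ m) (u : Fin n → K[X]) (hu : ∑ i, u i * f i = 1) :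
    Submodule.span K (Set.range (colv f m)) = ⊤ := by
  rw [eq_top_iff]
  intro x _
  obtain ⟨g, hg⟩ : ∃ g : K[X], g = ∑ j : Fin (2 * m), C (x j) * X ^ (j : ℕ) := ⟨_, rfl⟩
  have hgd : g.degree < ((2 * m : ℕ) : WithBot ℕ) := by
    rw [hg]
    refine (degree_sum_le _ _).trans_lt ?_
    rw [Finset.sup_lt_iff (WithBot.bot_lt_coe _)]
    intro j _
    refine (degree_C_mul_X_pow_le _ _).trans_lt ?_
    exact_mod_cast j.2
  obtain ⟨w, hw, hw2⟩ := rep f hf i0 h0 hm u hu g hgd
  have hx : x = ∑ i, ∑ l : Fin m, (w i).coeff l • colv f m (i, l) := by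
    funext j
    have h1 : g.coeff j = x j := by
      rw [hg, finsetSum_coeff]
      simp only [coeff_C_mul, coeff_X_pow]
      rw [Finset.sum_eq_single j]
      · simp
      · intro b _ hb
        rw [if_neg (fun h => hb (Fin.ext h.symm)), mul_zero]
      · intro h
        exact absurd (Finset.mem_univ _) h
    rw [← h1, ← hw2, finsetSum_coeff, Finset.sum_apply]
    refine Finset.sum_congr rfl fun i _ => ?_
    rw [Finset.sum_apply]
    have h2 : w i = ∑ l : Fin m, C ((w i).coeff l) * X ^ (l : ℕ) := by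
      by_cases hwi : w i = 0
      · rw [hwi]
        simp
      · have h3 := (natDegree_lt_iff_degree_lt hwi).2 (hw i)
        conv_lhs => rw [as_sum_range_C_mul_X_pow' (w i) h3]
        rw [Finset.sum_range]
    conv_lhs => rw [h2, Finset.sum_mul, finsetSum_coeff]
    refine Finset.sum_congr rfl fun l _ => ?_
    rw [mul_assoc, coeff_C_mul]
    rfl
  rw [hx]
  refine Submodule.sum_mem _ fun i _ => Submodule.sum_mem _ fun l _ => ?_
  exact Submodule.smul_mem _ _ (Submodule.subset_span ⟨_, rfl⟩)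

/-- a basis chosen in a spanning family -/
theorem choose_basis {ι V : Type} [AddCommGroup V] [Module K V] [Module.Finite K V] {d : ℕ}
    (hd : Module.finrank K V = d) (v : ι → V) (hv : Submodule.span K (Set.range v) = ⊤) :
    ∃ s : Fin d → ι, LinearIndependent K (fun k => v (s k)) := by
  obtain ⟨b, hb1, hb2, hb3⟩ := exists_linearIndependent K (Set.range v)
  rw [hv] at hb2
  have hsp : ⊤ ≤ Submodule.span K (Set.range ((↑) : b → V)) := by
    rw [Subtype.range_coe, hb2]
  obtain ⟨e⟩ : Nonempty (Fin d ≃ b) :=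
    ⟨(Module.finBasisOfFinrankEq K V hd).indexEquiv (Module.Basis.mk hb3 hsp)⟩
  choose p hp using fun x : b => hb1 x.2
  refine ⟨fun k => p (e k), ?_⟩
  have h1 : (fun k => v (p (e k))) = (fun x : b => (x : V)) ∘ e := by
    funext k
    exact hp (e k)
  rw [h1]
  exact hb3.comp e e.injective

/-- the minor -/
theorem exM (f : Fin n → K[X]) (hf : ∀ i, (f i).natDegree ≤ m) (i0 : Fin n)
    (h0 : (f i0).natDegree = m) (hm : 1 ≤ m) (u : Fin n → K[X]) (hu : ∑ i, u i * f i = 1) :
    ∃ s : Fin (2 * m) → Fin n × Fin m,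
      (Matrix.of fun j k => colv f m (s k) j : Matrix (Fin (2 * m)) (Fin (2 * m)) K).det ≠ 0 := by
  obtain ⟨s, hs⟩ := choose_basis (K := K) (V := Fin (2 * m) → K) (d := 2 * m) (by simp)
    (colv f m) (span_colv f hf i0 h0 hm u hu)
  refine ⟨s, ?_⟩
  have h1 : LinearIndependent K
      (Matrix.of fun j k => colv f m (s k) j : Matrix (Fin (2 * m)) (Fin (2 * m)) K).col := hs
  rw [Matrix.linearIndependent_cols_iff_isUnit, Matrix.isUnit_iff_isUnit_det] at h1
  exact h1.ne_zero

/-- evaluation of the column -/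
theorem eval_col (f : Fin n → K[X]) (hf : ∀ i, (f i).natDegree ≤ m) (p : Fin n × Fin m) (t : K) :
    t ^ (p.2 : ℕ) * (f p.1).eval t = ∑ j : Fin (2 * m), colv f m p j * t ^ (j : ℕ) := by
  have h1 : (X ^ (p.2 : ℕ) * f p.1).natDegree < 2 * m := by
    have h2 : (X ^ (p.2 : ℕ) * f p.1).natDegree ≤ (X ^ (p.2 : ℕ) : K[X]).natDegree +
      (f p.1).natDegree := natDegree_mul_le
    rw [natDegree_X_pow] at h2
    have h3 := p.2.2
    have h4 := hf p.1
    omega
  have h2 := eval_eq_sum_range' h1 t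
  rw [eval_mul, eval_pow, eval_X, Finset.sum_range] at h2
  exact h2

theorem colv_entry (f : Fin n → K[X]) (hf : ∀ i, (f i).natDegree ≤ m) (p : Fin n × Fin m)
    (j : Fin (2 * m)) : colv f m p j = 0 ∨ ∃ q : Fin n × Fin (m + 1),
      colv f m p j = (f q.1).coeff q.2 := by
  unfold colv
  rw [coeff_X_pow_mul']
  split_ifs with h
  · by_cases h2 : (j : ℕ) - p.2 ≤ m
    · right
      exact ⟨(p.1, ⟨j - p.2, by omega⟩), rfl⟩
    · left
      exact coeff_eq_zero_of_natDegree_lt (by have := hf p.1; omega)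
  · left
    rfl

end alg

section val

variable {K : Type} [Field K] (a : AbsoluteValue K ℝ) (ha : ∀ x y, a (x + y) ≤ max (a x) (a y))

include ha

theorem sum_le {ι : Type} (s : Finset ι) (f : ι → K) {B : ℝ} (hB : 0 ≤ B)
    (h : ∀ i ∈ s, a (f i) ≤ B) : a (∑ i ∈ s, f i) ≤ B := by
  classical
  induction s using Finset.induction_on with
  | empty => rw [Finset.sum_empty, map_zero]; exact hB
  | insert i s hi ih =>
    rw [Finset.sum_insert hi]
    refine (ha _ _).trans (max_le (h i (Finset.mem_insert_self _ _)) ?_)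
    exact ih fun j hj => h j (Finset.mem_insert_of_mem hj)

theorem det_le' {d : ℕ} (M : Matrix (Fin d) (Fin d) K) {B : ℝ} (hB : 0 ≤ B)
    (h : ∀ i j, a (M i j) ≤ B) : a M.det ≤ B ^ d := by
  rw [Matrix.det_apply]
  refine sum_le a ha _ _ (by positivity) fun σ _ => ?_
  have h1 : a (Equiv.Perm.sign σ • ∏ i, M (σ i) i) = a (∏ i, M (σ i) i) := by
    rcases Int.units_eq_one_or (Equiv.Perm.sign σ) with h2 | h2
    · rw [h2, one_smul]
    · rw [h2, Units.neg_smul, one_smul, map_neg_eq_map]
  rw [h1, map_prod]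
  calc ∏ i, a (M (σ i) i) ≤ ∏ _i : Fin d, B :=
        Finset.prod_le_prod (fun i _ => a.nonneg _) fun i _ => h _ _
    _ = B ^ d := by simp

theorem adj_le {d : ℕ} (M : Matrix (Fin d) (Fin d) K) {B : ℝ} (hB : 0 ≤ B)
    (h : ∀ i j, a (M i j) ≤ B) (k j : Fin d) : a (M.adjugate k j) ≤ B ^ (d - 1) := by
  rw [Matrix.adjugate_apply, Matrix.det_apply]
  refine sum_le a ha _ _ (by positivity) fun σ _ => ?_
  have h1 : ∀ z : K, a (Equiv.Perm.sign σ • z) = a z := by
    intro z
    rcases Int.units_eq_one_or (Equiv.Perm.sign σ) with h2 | h2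
    · rw [h2, one_smul]
    · rw [h2, Units.neg_smul, one_smul, map_neg_eq_map]
  rw [h1, map_prod, ← Finset.mul_prod_erase _ _ (Finset.mem_univ (σ.symm j))]
  have h2 : a (M.updateRow j (Pi.single k 1) (σ (σ.symm j)) (σ.symm j)) ≤ 1 := by
    rw [Equiv.apply_symm_apply, Matrix.updateRow_self]
    by_cases h3 : σ.symm j = k
    · rw [h3, Pi.single_eq_same, map_one]
    · rw [Pi.single_eq_of_ne h3, map_zero]
      exact zero_le_one
  have h3 : ∏ i ∈ Finset.univ.erase (σ.symm j), a (M.updateRow j (Pi.single k 1) (σ i) i) ≤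
      B ^ (d - 1) := by
    calc ∏ i ∈ Finset.univ.erase (σ.symm j), a (M.updateRow j (Pi.single k 1) (σ i) i)
        ≤ ∏ _i ∈ Finset.univ.erase (σ.symm j), B := by
          refine Finset.prod_le_prod (fun i _ => a.nonneg _) fun i hi => ?_
          rw [Matrix.updateRow_ne]
          · exact h _ _
          · intro hc
            apply Finset.ne_of_mem_erase hi
            rw [← hc, Equiv.symm_apply_apply]
      _ = B ^ (d - 1) := by
          rw [Finset.prod_const, Finset.card_erase_of_mem (Finset.mem_univ _), Finset.card_fin]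
  calc _ ≤ 1 * B ^ (d - 1) := by
        refine mul_le_mul h2 h3 ?_ zero_le_one
        exact Finset.prod_nonneg fun i _ => a.nonneg _
    _ = _ := one_mul _

/-- the upper bound -/
theorem upper {m : ℕ} (f : K[X]) (hf : f.natDegree ≤ m) {B : ℝ} (hB : 0 ≤ B)
    (h : ∀ k : Fin (m + 1), a (f.coeff k) ≤ B) (t : K) : a (f.eval t) ≤ B * max (a t) 1 ^ m := by
  rw [eval_eq_sum_range' (Nat.lt_succ_of_le hf), Finset.sum_range]
  refine sum_le a ha _ _ (by positivity) fun k _ => ?_
  rw [map_mul, map_pow]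
  have h1 : a t ^ (k : ℕ) ≤ max (a t) 1 ^ m := by
    calc a t ^ (k : ℕ) ≤ max (a t) 1 ^ (k : ℕ) := by
          gcongr
          exact le_max_left _ _
      _ ≤ max (a t) 1 ^ m := pow_le_pow_right₀ (le_max_right _ _) (by omega)
  exact mul_le_mul (h k) h1 (by positivity) hB

/-- the lower bound -/
theorem lower {n m : ℕ} (hm : 1 ≤ m) (f : Fin n → K[X]) (hf : ∀ i, (f i).natDegree ≤ m)
    (s : Fin (2 * m) → Fin n × Fin m) {B S : ℝ} (hB : 0 < B)
    (h : ∀ j k, a (colv f m (s k) j) ≤ B)
    (hD : a (Matrix.of fun j k => colv f m (s k) j :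
      Matrix (Fin (2 * m)) (Fin (2 * m)) K).det = B ^ (2 * m)) (t : K)
    (hS : ∀ i, a ((f i).eval t) ≤ S) : B * max (a t) 1 ^ m ≤ S := by
  obtain ⟨M, hM⟩ : ∃ M : Matrix (Fin (2 * m)) (Fin (2 * m)) K,
    M = Matrix.of fun j k => colv f m (s k) j := ⟨_, rfl⟩
  rw [← hM] at hD
  have hMe : ∀ j k, M j k = colv f m (s k) j := by
    intro j k
    rw [hM]
    rfl
  have hS0 : 0 ≤ S := (a.nonneg _).trans (hS (s ⟨0, by omega⟩).1)
  have h1 : ∀ j : Fin (2 * m), M.det * t ^ (j : ℕ) =
      ∑ k, M.adjugate k j * (t ^ ((s k).2 : ℕ) * (f (s k).1).eval t) := by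
    intro j
    have h2 : ∀ k, t ^ ((s k).2 : ℕ) * (f (s k).1).eval t =
        ∑ q : Fin (2 * m), M q k * t ^ (q : ℕ) := by
      intro k
      rw [eval_col f hf]
      exact Finset.sum_congr rfl fun q _ => by rw [hMe]
    simp only [h2, Finset.mul_sum]
    rw [Finset.sum_comm]
    have h3 : ∀ q : Fin (2 * m), ∑ k, M.adjugate k j * (M q k * t ^ (q : ℕ)) =
        (M * M.adjugate) q j * t ^ (q : ℕ) := by
      intro q
      rw [Matrix.mul_apply, Finset.sum_mul]
      exact Finset.sum_congr rfl fun k _ => by ring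
    simp only [h3, Matrix.mul_adjugate, Matrix.smul_apply, Matrix.one_apply, smul_eq_mul]
    rw [Finset.sum_eq_single j]
    · simp
    · intro b _ hb
      rw [if_neg hb, mul_zero, zero_mul]
    · intro hj
      exact absurd (Finset.mem_univ _) hj
  have h4 : ∀ j : Fin (2 * m), B * a t ^ (j : ℕ) ≤ max (a t) 1 ^ (m - 1) * S := by
    intro j
    have h5 : a (M.det * t ^ (j : ℕ)) ≤ B ^ (2 * m - 1) * (max (a t) 1 ^ (m - 1) * S) := by
      rw [h1]
      refine sum_le a ha _ _ (by positivity) fun k _ => ?_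
      rw [map_mul, map_mul, map_pow]
      have h6 := adj_le a ha M hB.le (fun i j => by rw [hMe]; exact h i j) k j
      have h7 : a t ^ ((s k).2 : ℕ) ≤ max (a t) 1 ^ (m - 1) := by
        calc a t ^ ((s k).2 : ℕ) ≤ max (a t) 1 ^ ((s k).2 : ℕ) := by
              gcongr
              exact le_max_left _ _
          _ ≤ max (a t) 1 ^ (m - 1) := pow_le_pow_right₀ (le_max_right _ _) (by
              have := (s k).2.2
              omega)
      have h8 := hS (s k).1
      have h9 : 0 ≤ a ((f (s k).1).eval t) := a.nonneg _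
      gcongr
    rw [map_mul, map_pow, hD] at h5
    have h6 : B ^ (2 * m) = B ^ (2 * m - 1) * B := by
      rw [← pow_succ]
      congr 1
      omega
    rw [h6, mul_assoc] at h5
    exact le_of_mul_le_mul_left h5 (by positivity)
  rcases le_or_gt (a t) 1 with ht | ht
  · have h5 := h4 ⟨0, by omega⟩
    rw [max_eq_right ht, one_pow] at h5 ⊢
    simpa using h5
  · have h5 := h4 ⟨2 * m - 1, by omega⟩
    rw [max_eq_left ht.le] at h5 ⊢
    have h6 : a t ^ (2 * m - 1) = a t ^ (m - 1) * a t ^ m := by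
      rw [← pow_add]
      congr 1
      omega
    have h7 : 0 < a t ^ (m - 1) := by positivity
    rw [show ((⟨2 * m - 1, by omega⟩ : Fin (2 * m)) : ℕ) = 2 * m - 1 from rfl, h6] at h5
    refine le_of_mul_le_mul_left ?_ h7
    calc a t ^ (m - 1) * (B * a t ^ m) = B * (a t ^ (m - 1) * a t ^ m) := by ring
      _ ≤ _ := h5

end val

end Pool.Agent.Y664.U557
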