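import Pool.Agent.Y557.U.Stm
import Pool.Agent.Y664.U557.Core

/-!
# Project Y557-UNI (owner helper557), task UNI-2: a minor of the matrix of a parametrisation
-/

set_option autoImplicit false

namespace Pool.Agent.Y664.U557

open NumberField IsDedekindDomain Finset Polynomial
open Pool.Agent.H691R3 Pool.Agent.TH876.Loc
open Pool.Agent.Y557.U

theorem min_holds (K : Type) [Field K] [NumberField K] : S_MIN K := by
  intro n m f hm hf hfm hu
  obtain ⟨i0, h0⟩ := hfm
  obtain ⟨u, hu⟩ := hu
  obtain ⟨s, hs⟩ := exM f hf i0 h0 hm u hu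
  have hcf : ∀ q : Fin n × Fin (m + 1), ∀ v : Pr K, fv v ((f q.1).coeff q.2) ≤ sn v (cf f m) := by
    intro q v
    exact le_ciSup (f := fun i => fv v (cf f m i)) (Set.finite_range _).bddAbove q
  have hcw : ∀ q : Fin n × Fin (m + 1), ∀ w : InfinitePlace K,
      w ((f q.1).coeff q.2) ≤ sw w (cf f m) := by
    intro q w
    exact le_ciSup (f := fun i => w (cf f m i)) (Set.finite_range _).bddAbove q
  have hsn : ∀ v : Pr K, 0 ≤ sn v (cf f m) := fun v => Real.iSup_nonneg fun i => (fv v).nonneg _
  have hsw : ∀ w : InfinitePlace K, 0 ≤ sw w (cf f m) :=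
    fun w => Real.iSup_nonneg fun i => apply_nonneg w _
  have hent : ∀ (v : Pr K) (j k : Fin (2 * m)), fv v (colv f m (s k) j) ≤ sn v (cf f m) := by
    intro v j k
    rcases colv_entry f hf (s k) j with h | ⟨q, h⟩
    · rw [h, map_zero]
      exact hsn v
    · rw [h]
      exact hcf q v
  have hentw : ∀ (w : InfinitePlace K) (j k : Fin (2 * m)),
      w (colv f m (s k) j) ≤ sw w (cf f m) := by
    intro w j k
    rcases colv_entry f hf (s k) j with h | ⟨q, h⟩
    · rw [h, map_zero]
      exact hsw w
    · rw [h]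
      exact hcw q w
  refine ⟨_, hs, fun v => ?_, fun w => ?_, fun v hv t => ?_⟩
  · exact det_le' (fv v) (fv_na v) _ (hsn v) fun i j => hent v i j
  · have h1 := Matrix.det_le (A := (Matrix.of fun j k => colv f m (s k) j :
      Matrix (Fin (2 * m)) (Fin (2 * m)) K)) (abv := w.1) (x := sw w (cf f m))
      (fun i j => hentw w i j)
    rw [Fintype.card_fin, nsmul_eq_mul] at h1
    exact h1
  · have hpos : 0 < sn v (cf f m) := by
      rcases (hsn v).lt_or_eq with h | h
      · exact h
      · exfalso
        rw [← h, zero_pow (by omega)] at hv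
        exact hs ((fv v).eq_zero.1 hv)
    have : Nonempty (Fin n) := ⟨i0⟩
    apply le_antisymm
    · refine ciSup_le fun i => ?_
      exact upper (fv v) (fv_na v) (f i) (hf i) (hsn v) (fun k => hcf (i, k) v) t
    · exact lower (fv v) (fv_na v) hm f hf s hpos (fun j k => hent v j k) hv t fun i =>
        le_ciSup (f := fun i => fv v ((f i).eval t)) (Set.finite_range _).bddAbove i

end Pool.Agent.Y664.U557
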