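import Pool.Agent.Y557.U.Stm2
import Pool.Agent.Y664.U557.Core

/-!
# Project Y557-UNI (owner helper557), task UNI-2, all places: lower bound for the values of a
parametrisation
-/

set_option autoImplicit false

namespace Pool.Agent.Y664.U557

open NumberField IsDedekindDomain Finset Polynomial
open Pool.Agent.H691R3 Pool.Agent.TH876.Loc
open Pool.Agent.Y557.U

section gen

variable {K : Type} [Field K] {n m : ℕ}

/-- Cramer's rule, evaluated -/
theorem cramer_eval (f : Fin n → K[X]) (hf : ∀ i, (f i).natDegree ≤ m)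
    (s : Fin (2 * m) → Fin n × Fin m) (M : Matrix (Fin (2 * m)) (Fin (2 * m)) K)
    (hMe : ∀ j k, M j k = colv f m (s k) j) (t : K) (j : Fin (2 * m)) :
    M.det * t ^ (j : ℕ) =
      ∑ k, M.adjugate k j * (t ^ ((s k).2 : ℕ) * (f (s k).1).eval t) := by
  have h2 : ∀ k, t ^ ((s k).2 : ℕ) * (f (s k).1).eval t =
      ∑ q : Fin (2 * m), M q k * t ^ (q : ℕ) := by
    intro k
    rw [eval_col f hf]
    exact Finset.sum_congr rfl fun q _ => by rw [hMe]
  simp only [h2, Finset.mul_sum]
  rw [Finset.sum_comm]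
  have h3 : ∀ q : Fin (2 * m), ∑ k, M.adjugate k j * (M q k * t ^ (q : ℕ)) =
      (M * M.adjugate) q j * t ^ (q : ℕ) := by
    intro q
    rw [Matrix.mul_apply, Finset.sum_mul]
    exact Finset.sum_congr rfl fun k _ => by ring
  simp only [h3, Matrix.mul_adjugate, Matrix.smul_apply, Matrix.one_apply, smul_eq_mul]
  rw [Finset.sum_eq_single j]
  · simp
  · intro b _ hb
    rw [if_neg hb, mul_zero, zero_mul]
  · intro hj
    exact absurd (Finset.mem_univ _) hj

/-- the lower bound for a general absolute value -/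
theorem lower_gen (a : AbsoluteValue K ℝ) (hm : 1 ≤ m) (f : Fin n → K[X])
    (hf : ∀ i, (f i).natDegree ≤ m)
    (s : Fin (2 * m) → Fin n × Fin m) (M : Matrix (Fin (2 * m)) (Fin (2 * m)) K)
    (hMe : ∀ j k, M j k = colv f m (s k) j) {B S c1 c2 : ℝ} (hB : 0 ≤ B) (hc1 : 0 ≤ c1)
    (hadj : ∀ k j, a (M.adjugate k j) ≤ c1 * B ^ (2 * m - 1))
    (hsum : ∀ (g : Fin (2 * m) → K) (b : ℝ), 0 ≤ b → (∀ k, a (g k) ≤ b) →
      a (∑ k, g k) ≤ c2 * b) (t : K)
    (hS : ∀ i, a ((f i).eval t) ≤ S) :
    a M.det * max (a t) 1 ^ m ≤ c1 * c2 * (B ^ (2 * m - 1) * S) := by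
  have hS0 : 0 ≤ S := (a.nonneg _).trans (hS (s ⟨0, by omega⟩).1)
  have h4 : ∀ j : Fin (2 * m), a M.det * a t ^ (j : ℕ) ≤
      c2 * (c1 * B ^ (2 * m - 1) * (max (a t) 1 ^ (m - 1) * S)) := by
    intro j
    rw [← map_pow, ← map_mul, cramer_eval f hf s M hMe t j]
    refine hsum _ _ (by positivity) fun k => ?_
    rw [map_mul, map_mul, map_pow]
    have h6 := hadj k j
    have h7 : a t ^ ((s k).2 : ℕ) ≤ max (a t) 1 ^ (m - 1) := by
      calc a t ^ ((s k).2 : ℕ) ≤ max (a t) 1 ^ ((s k).2 : ℕ) := by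
            gcongr
            exact le_max_left _ _
        _ ≤ max (a t) 1 ^ (m - 1) := pow_le_pow_right₀ (le_max_right _ _) (by
            have := (s k).2.2
            omega)
    have h8 := hS (s k).1
    have h9 : 0 ≤ a ((f (s k).1).eval t) := a.nonneg _
    gcongr
  rcases le_or_gt (a t) 1 with ht | ht
  · have h5 := h4 ⟨0, by omega⟩
    rw [max_eq_right ht, one_pow] at h5 ⊢
    rw [show ((⟨0, by omega⟩ : Fin (2 * m)) : ℕ) = 0 from rfl, pow_zero] at h5
    refine h5.trans (le_of_eq ?_)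
    ring
  · have h5 := h4 ⟨2 * m - 1, by omega⟩
    rw [max_eq_left ht.le] at h5 ⊢
    have h6 : a t ^ (2 * m - 1) = a t ^ (m - 1) * a t ^ m := by
      rw [← pow_add]
      congr 1
      omega
    have h7 : 0 < a t ^ (m - 1) := by positivity
    rw [show ((⟨2 * m - 1, by omega⟩ : Fin (2 * m)) : ℕ) = 2 * m - 1 from rfl, h6] at h5
    refine le_of_mul_le_mul_left ?_ h7
    calc a t ^ (m - 1) * (a M.det * a t ^ m) = a M.det * (a t ^ (m - 1) * a t ^ m) := by ring
      _ ≤ _ := h5
      _ = _ := by ring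

theorem adj_le_gen (a : AbsoluteValue K ℝ) {d : ℕ} (M : Matrix (Fin d) (Fin d) K) {B : ℝ}
    (_hB : 0 ≤ B) (h : ∀ i j, a (M i j) ≤ B) (k j : Fin d) :
    a (M.adjugate k j) ≤ (d.factorial : ℝ) * B ^ (d - 1) := by
  rw [Matrix.adjugate_apply, Matrix.det_apply]
  have h0 : ∀ σ : Equiv.Perm (Fin d),
      a (Equiv.Perm.sign σ • ∏ i, M.updateRow j (Pi.single k 1) (σ i) i) ≤ B ^ (d - 1) := by
    intro σ
    have h1 : ∀ z : K, a (Equiv.Perm.sign σ • z) = a z := by
      intro z
      rcases Int.units_eq_one_or (Equiv.Perm.sign σ) with h2 | h2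
      · rw [h2, one_smul]
      · rw [h2, Units.neg_smul, one_smul, map_neg_eq_map]
    rw [h1, map_prod, ← Finset.mul_prod_erase _ _ (Finset.mem_univ (σ.symm j))]
    have h2 : a (M.updateRow j (Pi.single k 1) (σ (σ.symm j)) (σ.symm j)) ≤ 1 := by
      rw [Equiv.apply_symm_apply, Matrix.updateRow_self]
      by_cases h3 : σ.symm j = k
      · rw [h3, Pi.single_eq_same, map_one]
      · rw [Pi.single_eq_of_ne h3, map_zero]
        exact zero_le_one
    have h3 : ∏ i ∈ Finset.univ.erase (σ.symm j), a (M.updateRow j (Pi.single k 1) (σ i) i) ≤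
        B ^ (d - 1) := by
      calc ∏ i ∈ Finset.univ.erase (σ.symm j), a (M.updateRow j (Pi.single k 1) (σ i) i)
          ≤ ∏ _i ∈ Finset.univ.erase (σ.symm j), B := by
            refine Finset.prod_le_prod (fun i _ => a.nonneg _) fun i hi => ?_
            rw [Matrix.updateRow_ne]
            · exact h _ _
            · intro hc
              apply Finset.ne_of_mem_erase hi
              rw [← hc, Equiv.symm_apply_apply]
        _ = B ^ (d - 1) := by
            rw [Finset.prod_const, Finset.card_erase_of_mem (Finset.mem_univ _), Finset.card_fin]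
    calc _ ≤ 1 * B ^ (d - 1) := by
          refine mul_le_mul h2 h3 ?_ zero_le_one
          exact Finset.prod_nonneg fun i _ => a.nonneg _
      _ = _ := one_mul _
  calc a (∑ σ : Equiv.Perm (Fin d),
        Equiv.Perm.sign σ • ∏ i, M.updateRow j (Pi.single k 1) (σ i) i)
      ≤ ∑ σ : Equiv.Perm (Fin d),
        a (Equiv.Perm.sign σ • ∏ i, M.updateRow j (Pi.single k 1) (σ i) i) := a.sum_le _ _
    _ ≤ ∑ _σ : Equiv.Perm (Fin d), B ^ (d - 1) := Finset.sum_le_sum fun σ _ => h0 σ
    _ = _ := by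
      rw [Finset.sum_const, Finset.card_univ, Fintype.card_perm, Fintype.card_fin, nsmul_eq_mul]

end gen

theorem min2_holds (K : Type) [Field K] [NumberField K] : S_MIN2 K := by
  intro n m hm
  refine ⟨((2 * m).factorial : ℝ) * (2 * m : ℕ), ?_, fun f hf hfm hu => ?_⟩
  · have h1 : 1 ≤ (2 * m).factorial := Nat.factorial_pos _
    have h2 : 1 ≤ 2 * m := by omega
    exact_mod_cast Nat.one_le_iff_ne_zero.2 (by positivity)
  obtain ⟨i0, h0⟩ := hfm
  obtain ⟨u, hu⟩ := hu
  obtain ⟨s, hs⟩ := exM f hf i0 h0 hm u hu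
  have hcf : ∀ q : Fin n × Fin (m + 1), ∀ v : Pr K, fv v ((f q.1).coeff q.2) ≤ sn v (cf f m) := by
    intro q v
    exact le_ciSup (f := fun i => fv v (cf f m i)) (Set.finite_range _).bddAbove q
  have hcw : ∀ q : Fin n × Fin (m + 1), ∀ w : InfinitePlace K,
      w ((f q.1).coeff q.2) ≤ sw w (cf f m) := by
    intro q w
    exact le_ciSup (f := fun i => w (cf f m i)) (Set.finite_range _).bddAbove q
  have hsn : ∀ v : Pr K, 0 ≤ sn v (cf f m) := fun v => Real.iSup_nonneg fun i => (fv v).nonneg _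
  have hsw : ∀ w : InfinitePlace K, 0 ≤ sw w (cf f m) :=
    fun w => Real.iSup_nonneg fun i => apply_nonneg w _
  have hent : ∀ (v : Pr K) (j k : Fin (2 * m)), fv v (colv f m (s k) j) ≤ sn v (cf f m) := by
    intro v j k
    rcases colv_entry f hf (s k) j with h | ⟨q, h⟩
    · rw [h, map_zero]
      exact hsn v
    · rw [h]
      exact hcf q v
  have hentw : ∀ (w : InfinitePlace K) (j k : Fin (2 * m)),
      w (colv f m (s k) j) ≤ sw w (cf f m) := by
    intro w j k
    rcases colv_entry f hf (s k) j with h | ⟨q, h⟩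
    · rw [h, map_zero]
      exact hsw w
    · rw [h]
      exact hcw q w
  refine ⟨_, hs, fun v t => ?_, fun w t => ?_⟩
  · have h1 := lower_gen (fv v) hm f hf s (Matrix.of fun j k => colv f m (s k) j)
      (fun _ _ => rfl) (B := sn v (cf f m)) (S := ⨆ i, fv v ((f i).eval t)) (c1 := 1) (c2 := 1)
      (hsn v) zero_le_one
      (fun k j => by
        rw [one_mul]
        exact adj_le (fv v) (fv_na v) _ (hsn v) (fun i j => hent v i j) k j)
      (fun g b hb h => by
        rw [one_mul]
        exact sum_le (fv v) (fv_na v) _ _ hb fun k _ => h k)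
      t (fun i => le_ciSup (f := fun i => fv v ((f i).eval t)) (Set.finite_range _).bddAbove i)
    rw [one_mul, one_mul] at h1
    exact h1
  · have h1 := lower_gen w.1 hm f hf s (Matrix.of fun j k => colv f m (s k) j)
      (fun _ _ => rfl) (B := sw w (cf f m)) (S := ⨆ i, w ((f i).eval t))
      (c1 := ((2 * m).factorial : ℝ)) (c2 := (2 * m : ℕ))
      (hsw w) (by positivity)
      (fun k j => adj_le_gen w.1 _ (hsw w) (fun i j => hentw w i j) k j)
      (fun g b hb h => by
        refine (w.1.sum_le _ _).trans ?_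
        refine (Finset.sum_le_sum fun k _ => h k).trans (le_of_eq ?_)
        rw [Finset.sum_const, Finset.card_univ, Fintype.card_fin, nsmul_eq_mul])
      t (fun i => le_ciSup (f := fun i => w ((f i).eval t)) (Set.finite_range _).bddAbove i)
    exact h1

end Pool.Agent.Y664.U557
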